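import Pool.Agent.Helper95.QL.Defs
import Pool.Agent.Helper19.EQ.QPar2

/-!
# Project QL: the parameters
-/

set_option autoImplicit false

namespace Pool.Agent.Helper19.QL

open Finset MeasureTheory Set Filter Topology Pool.Agent.Helper99.MS
open Pool.Agent.Helper19.EQ Pool.Agent.Helper19.QD
open Pool.Agent.Helper95.QL (ZM)

theorem pn1 {B : ℝ} (hB : 0 ≤ B) {K : ℝ} (hK : 0 ≤ K) (CN : ℝ) {ε : ℝ} (hε : 0 < ε) : ∀ᶠ m : ℝ in atTop,
    K * (2 * Real.exp (-(m / 32)) + 16 * B * Real.exp (-((m - 4) / 32)) + 2 * (CN * m ^ (-(3 / 16) : ℝ))) ≤ ε := by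
  filter_upwards [pl1 B K (show 0 < ε / 2 by linarith), pl_neg (show (-(3 / 16) : ℝ) < 0 by norm_num) (K * (2 * CN)) (show 0 < ε / 2 by linarith)]
    with m h1 h2
  have hCE := CE_nonneg
  have h3 : 0 ≤ K * (2 * (228 * B * CE / √m)) := by positivity
  have e1 : K * (2 * Real.exp (-(m / 32)) + 16 * B * Real.exp (-((m - 4) / 32)) + 2 * (CN * m ^ (-(3 / 16) : ℝ))) =
      K * (2 * Real.exp (-(m / 32)) + 16 * B * Real.exp (-((m - 4) / 32)) + 2 * (228 * B * CE / √m)) -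
        K * (2 * (228 * B * CE / √m)) + K * (2 * CN) * m ^ (-(3 / 16) : ℝ) := by ring
  rw [e1]
  linarith

/-- the kernel tail against the sixth power -/
theorem L15_le {m : ℝ} (hm : 1 ≤ m) (b2 : 1024 ≤ lm m) : m ^ 7 * √m ≤ pL m ^ 15 := by
  have h1 := pL_ge b2
  have hs : √m * √m = m := Real.mul_self_sqrt (by linarith)
  calc m ^ 7 * √m = (√m * √m) ^ 7 * √m := by rw [hs]
    _ = √m ^ 15 := by ring
    _ ≤ pL m ^ 15 := pow_le_pow_left₀ (Real.sqrt_nonneg m) h1 15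

theorem pn3 {D CJ : ℝ} (hD : 0 ≤ D) (hCJ : 0 ≤ CJ) {ε : ℝ} (hε : 0 < ε) : ∀ᶠ m : ℝ in atTop,
    D * m ^ 6 * (CJ / pL m ^ 15) ≤ ε := by
  filter_upwards [pl_neg (show (-1 : ℝ) < 0 by norm_num) (D * CJ) hε, basic] with m h hb
  obtain ⟨b1, b2, _, _, _, b6⟩ := hb
  have hm : (1:ℝ) ≤ m := by linarith
  have hm0 : (0:ℝ) < m := by linarith
  have h1 := L15_le hm b2
  have h2 : m ^ 7 ≤ pL m ^ 15 := by
    refine le_trans ?_ h1
    exact le_mul_of_one_le_right (by positivity) (by linarith)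
  calc D * m ^ 6 * (CJ / pL m ^ 15) ≤ D * m ^ 6 * (CJ / m ^ 7) := by gcongr
    _ = D * CJ * m ^ (-1 : ℝ) := by
        rw [Real.rpow_neg_one]
        field_simp
    _ ≤ ε := h

theorem pn6 {D CJ : ℝ} (hD : 0 ≤ D) (hCJ : 0 ≤ CJ) {ε : ℝ} (hε : 0 < ε) : ∀ᶠ m : ℝ in atTop,
    D * m ^ 6 * (pY m + 3) * (CJ / pL m ^ 15) ≤ ε := by
  filter_upwards [pl_neg (show (-(1 / 2) : ℝ) < 0 by norm_num) (D * CJ * 4) hε, basic] with m h hb
  obtain ⟨b1, b2, b3, _, _, b6⟩ := hb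
  have hm : (1:ℝ) ≤ m := by linarith
  have hm0 : (0:ℝ) < m := by linarith
  have hs0 : 0 < √m := by linarith
  have h1 := L15_le hm b2
  have h2 : pY m + 3 ≤ 4 * m := by linarith
  have h3 : 0 ≤ pY m := (Real.sqrt_nonneg m).trans (pY_ge b2)
  have h4 : 0 < pL m := hs0.trans_le (pL_ge b2)
  have h5 : 0 ≤ CJ / pL m ^ 15 := by positivity
  calc D * m ^ 6 * (pY m + 3) * (CJ / pL m ^ 15) ≤ D * m ^ 6 * (4 * m) * (CJ / (m ^ 7 * √m)) := by gcongr
    _ = D * CJ * 4 * m ^ (-(1 / 2) : ℝ) := by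
        rw [Real.rpow_neg hm0.le, ← Real.sqrt_eq_rpow]
        field_simp
    _ ≤ ε := h

/-- the pigeonhole condition -/
theorem pn7 {D CJ K : ℝ} (hD : 0 ≤ D) (hCJ : 0 ≤ CJ) (hK : 0 ≤ K) :
    ∀ᶠ m : ℝ in atTop, ∀ R : ℝ, 0 ≤ R → R ≤ K * √m →
      (1 + 48 * (256 * (D * m ^ 6) * R * (pY m + 3) * CJ) * (ZM (pL m)).card) ^ (2 * (ZM (pL m)).card) <
        (⌊Real.exp (pY m / 2)⌋₊ : ℝ) + 1 := by
  obtain ⟨L₀, hL₀, hcard⟩ := ZL_card
  have hLt : Tendsto (fun m : ℝ => pL m) atTop atTop := by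
    unfold pL
    exact Real.tendsto_sqrt_atTop.atTop_mul_atTop₀ ((tendsto_pow_atTop (by norm_num)).comp lm_tendsto)
  filter_upwards [basic, hLt.eventually_ge_atTop L₀,
    eventually_ge_atTop (1 + 48 * (256 * D * K * 4 * CJ) * 2)] with m hb hL hm2 R hR0 hR
  obtain ⟨b1, b2, b3, b4, _, b6⟩ := hb
  have hm : (1:ℝ) ≤ m := by linarith
  have hm0 : (0:ℝ) < m := by linarith
  have hlm : 0 ≤ lm m := by linarith
  have hl8 := lm_pow hm
  have hl : 0 ≤ Real.log m := Real.log_nonneg hm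
  have hl1 : 1 ≤ Real.log m := by
    rw [← hl8]
    exact one_le_pow₀ (by linarith)
  have h6 : 0 ≤ pY m := (Real.sqrt_nonneg m).trans (pY_ge b2)
  have h7 : 8 ≤ pL m := b6.trans (pL_ge b2)
  have hs : √m * √m = m := Real.mul_self_sqrt hm0.le
  have hs0 : 0 ≤ √m := Real.sqrt_nonneg m
  have hsm : √m ≤ m := by nlinarith
  have hcd := hcard (pL m) hL
  have hLpos : 0 < pL m := by linarith
  have hlogL : Real.log (pL m) ≤ Real.log m := Real.log_le_log hLpos b4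
  have hcM : (((ZM (pL m)).card : ℕ) : ℝ) ≤ (ZL (pL m)).card + 1 := by
    have : (ZM (pL m)).card ≤ (ZL (pL m)).card + 1 := Finset.card_insert_le _ _
    exact_mod_cast this
  set N := (ZM (pL m)).card with hN
  have hN1 : (N : ℝ) ≤ 2 * (pL m * Real.log m) := by
    have h8 : pL m * Real.log (pL m) ≤ pL m * Real.log m := mul_le_mul_of_nonneg_left hlogL hLpos.le
    have h9 : 1 ≤ pL m * Real.log m := by nlinarith
    linarith
  have hN2 : (N : ℝ) ≤ 2 * m ^ 2 := by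
    have h8 : Real.log m ≤ m := by
      have := Real.log_le_sub_one_of_pos hm0
      linarith
    calc (N : ℝ) ≤ 2 * (pL m * Real.log m) := hN1
      _ ≤ 2 * (m * m) := by gcongr
      _ = _ := by ring
  have hN0 : (0 : ℝ) ≤ N := Nat.cast_nonneg N
  have h15 : pY m + 3 ≤ 4 * m := by linarith
  have hbase : 0 ≤ 1 + 48 * (256 * (D * m ^ 6) * R * (pY m + 3) * CJ) * N := by positivity
  have h8 : 48 * (256 * (D * m ^ 6) * R * (pY m + 3) * CJ) * N ≤
      48 * (256 * (D * m ^ 6) * (K * m) * (4 * m) * CJ) * (2 * m ^ 2) := by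
    have hR' : R ≤ K * m := hR.trans (mul_le_mul_of_nonneg_left hsm hK)
    gcongr
  have h9 : 48 * (256 * (D * m ^ 6) * (K * m) * (4 * m) * CJ) * (2 * m ^ 2) = 48 * (256 * D * K * 4 * CJ) * 2 * m ^ 10 := by ring
  rw [h9] at h8
  have h11 : 1 ≤ m ^ 10 := one_le_pow₀ hm
  have hS : 1 + 48 * (256 * (D * m ^ 6) * R * (pY m + 3) * CJ) * N ≤ m ^ 11 := by
    calc 1 + 48 * (256 * (D * m ^ 6) * R * (pY m + 3) * CJ) * N
        ≤ m ^ 10 + 48 * (256 * D * K * 4 * CJ) * 2 * m ^ 10 := by linarith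
      _ = m ^ 10 * (1 + 48 * (256 * D * K * 4 * CJ) * 2) := by ring
      _ ≤ m ^ 10 * m := mul_le_mul_of_nonneg_left hm2 (by positivity)
      _ = m ^ 11 := by ring
  have h4 : (1 + 48 * (256 * (D * m ^ 6) * R * (pY m + 3) * CJ) * N) ^ (2 * N) ≤ (m ^ 11) ^ (2 * N) :=
    pow_le_pow_left₀ hbase hS _
  have h5 : (m ^ 11) ^ (2 * N) = Real.exp (22 * N * Real.log m) := by
    rw [← pow_mul, ← Real.exp_log (pow_pos hm0 _), Real.log_pow]
    congr 1
    push_cast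
    ring
  have h10 : (22:ℝ) * N * Real.log m ≤ pY m / 2 := by
    calc (22:ℝ) * N * Real.log m ≤ 22 * (2 * (pL m * Real.log m)) * Real.log m := by gcongr
      _ = 44 * √m * lm m ^ 18 := by
          unfold pL
          rw [← hl8]
          ring
      _ = (88 * √m * lm m ^ 18) / 2 := by ring
      _ ≤ (lm m * √m * lm m ^ 18) / 2 := by
          gcongr
          linarith
      _ = _ := by unfold pY; ring
  calc _ ≤ (m ^ 11) ^ (2 * N) := h4
    _ = Real.exp (22 * N * Real.log m) := h5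
    _ ≤ Real.exp (pY m / 2) := Real.exp_le_exp.2 h10
    _ < _ := Nat.lt_floor_add_one _

end Pool.Agent.Helper19.QL
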