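import Pool.Agent.Helper19.QL.CoreL
import Pool.Agent.Helper19.QL.ParL
import Pool.Agent.Helper19.EQ.Fin3
import Pool.Agent.Helper56.QL.Cp

/-! # Project QL: the theorem for the Liouville function, from the analytic blocks -/

set_option autoImplicit false

namespace Pool.Agent.Helper19.QL

open MeasureTheory Set Filter Topology
open Pool.Agent.Helper18.ES (lam)
open Pool.Agent.Helper95.QL (pw KJ g1l Hh ZM)
open Pool.Agent.Helper71.MR (gt)
open Pool.Agent.Helper63.EW (S)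
open Pool.Agent.Helper63.EQ (nu Adm)
open Pool.Agent.Helper19.QD (good w_large nu_large w_pow small_sums ll_large gauge_cmp ql2 ql5 ql8 ql9 pL_ge pY_ge)
open Pool.Agent.Helper56.QL (Drl_up finl)
open Pool.Agent.Helper99.MS (ff GB pL pY basic lm)

variable {w : ℝ → ℝ} {Cw B : ℝ}

/-- the analytic blocks -/
def Blocks (w : ℝ → ℝ) : Prop :=
  ∃ CH CN CJ : ℝ, 0 ≤ CH ∧ 0 ≤ CN ∧ 0 ≤ CJ ∧ ∀ B : ℝ, GB (ff lam) B → ∀ k : ℕ, 250 ≤ k → ∀ m δ L Y : ℝ, m = ((4 * k : ℕ) : ℝ) →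
    δ = 1 / √m → 1 ≤ L → 1 ≤ Y →
    NearL w B (CN * m ^ (-(3 / 16) : ℝ)) (CH * (B + 1) * m ^ 6) CJ k m δ L ∧
    FarL w (CN * m ^ (-(3 / 16) : ℝ)) (CH * (B + 1) * m ^ 6) CJ k m δ L ∧
    RecL (CH * (B + 1) * m ^ 6) CJ k L Y

/-- **the theorem** -/
theorem quantl_of (h : Adm w Cw) (hb : Blocks w) : ∃ c : ℝ, 0 < c ∧ ∀ X : ℕ, ∃ N : ℕ, X ≤ N ∧
    c * √(N : ℝ) * w (1 - Real.log (Real.log (Real.log N)) ^ 3 / Real.log (Real.log N)) < |S lam w N| := by
  obtain ⟨CH, CN, CJ, hCH, hCN, hCJ, hblk⟩ := hb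
  obtain ⟨C, hC1, hup⟩ := Drl_up h
  have hC0 : 0 < C := by linarith
  refine ⟨1 / (256 * C), by positivity, ?_⟩
  by_contra hcon
  push Not at hcon
  obtain ⟨X₀, hX₀⟩ := hcon
  set c : ℝ := 1 / (256 * C) with hc
  have hc0 : 0 < c := by positivity
  obtain ⟨X₁, hX₁⟩ := ll_large (Real.exp 93)
  have hcmp : ∀ N : ℕ, X₁ ≤ N → 0 ≤ 1 - Real.log (Real.log (Real.log N)) ^ 3 / Real.log (Real.log N) ∧
      w (1 - Real.log (Real.log (Real.log N)) ^ 3 / Real.log (Real.log N)) ≤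
        w (1 - Real.log (Real.log N) ^ (-(1:ℝ))) := fun N hN => gauge_cmp h (hX₁ N hN)
  obtain ⟨B, hB⟩ := finl h one_pos le_rfl c (max X₀ X₁) (fun N hN => by
    have h1 := hX₀ N ((le_max_left _ _).trans hN)
    have h2 := (hcmp N ((le_max_right _ _).trans hN)).2
    have h3 : c * √(N : ℝ) * w (1 - Real.log (Real.log (Real.log N)) ^ 3 / Real.log (Real.log N)) ≤
        c * √(N : ℝ) * w (1 - Real.log (Real.log N) ^ (-(1:ℝ))) := mul_le_mul_of_nonneg_left h2 (by positivity)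
    calc |S lam w N| ≤ _ := h1.trans h3
      _ = _ := by ring)
  have hB0 := hB.nonneg
  have hD0 : 0 ≤ CH * (B + 1) := by positivity
  obtain ⟨A, hA1, hgood⟩ := good h (C₁ := 7) (by norm_num)
  obtain ⟨K₀, hK₀, hsm⟩ := small_sums lam w (max X₀ X₁)
  have hpi := Real.pi_pos
  have hε : (0:ℝ) < 1 / 400 := by norm_num
  have E1 := pn1 hB0 (K := 80 * Real.pi * A) (by positivity) CN hε
  have E2 := ql2 ((1 / 128 + 40 * (4 + 16 * B + CN) * A) * (2 * CJ)) hε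
  have E3 := pn3 (D := 2 * (256 * (40 * A)) * (CH * (B + 1))) (CJ := CJ) (by positivity) hCJ hε
  have E4 := w_large h (400 * (1 + 2 * Real.pi * C * (K₀ + 1)))
  have E5 := ql5 (K := 8 * Real.pi * C * B) (by positivity) hε
  have E6 := pn6 (D := 256 * (40 * A) * (CH * (B + 1))) (CJ := CJ) (by positivity) hCJ hε
  have E7 := pn7 (D := CH * (B + 1)) (CJ := CJ) (K := 40 * A * (2 * |Cw|)) hD0 hCJ (by positivity)
  have E8 := ql8
  have E9 := ql9 h.hw
  have E10 := nu_large h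
  have E11 := w_pow h
  obtain ⟨m₀, hm₀⟩ := eventually_atTop.1 (E1.and (E2.and (E3.and (E4.and (E5.and (E6.and (E7.and (E8.and (E9.and
    (E10.and (E11.and basic)))))))))))
  obtain ⟨j₀, hj₀⟩ := exists_nat_ge m₀
  obtain ⟨j, hj, hW⟩ := hgood (j₀ + 5)
  have hj1 : 5 ≤ j := by omega
  obtain ⟨i, rfl⟩ : ∃ i, j = i + 1 := ⟨j - 1, by omega⟩
  set k : ℕ := 4 ^ i with hk
  have hk250 : 250 ≤ k := by
    calc 250 ≤ 4 ^ 4 := by norm_num
      _ ≤ 4 ^ i := Nat.pow_le_pow_right (by norm_num) (by omega)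
  set m : ℝ := ((4 * k : ℕ) : ℝ) with hm
  have hm4 : m = (2 ^ (i + 1)) ^ 2 := by
    rw [hm, hk]
    push_cast
    rw [← pow_mul, mul_comm (i + 1) 2, pow_mul]
    norm_num
    ring
  have hsm' : √m = 2 ^ (i + 1) := by
    rw [hm4]
    exact Real.sqrt_sq (by positivity)
  have hδ : ((1:ℝ) / 2) ^ (i + 1) = 1 / √m := by
    rw [hsm', div_pow, one_pow]
  have hmm₀ : m₀ ≤ m := by
    refine hj₀.trans ?_
    rw [hm]
    have h1 : i < 4 ^ i := Nat.lt_pow_self (by norm_num)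
    have h2 : j₀ ≤ 4 * k := by rw [hk]; omega
    exact_mod_cast h2
  obtain ⟨f1, f2, f3, f4, f5, f6, f7, f8, f9, f10, f11, fb⟩ := hm₀ m hmm₀
  have hm1000 : (1000:ℝ) ≤ m := by
    rw [hm]
    have : 1000 ≤ 4 * k := by omega
    exact_mod_cast this
  have hm0 : 0 < m := by linarith
  have hs0 : 0 < √m := Real.sqrt_pos.2 hm0
  rw [hδ] at hW
  set ω : ℝ := w (1 - 7 * (1 / √m)) with hω
  obtain ⟨_, b2, _, _, _, b6⟩ := fb
  have hLa : 1 ≤ pL m := by
    have := pL_ge b2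
    linarith
  have hYb : 1 ≤ pY m := by
    have := pY_ge b2
    linarith
  have hω1 : 1 ≤ ω := by
    have : 0 ≤ 2 * Real.pi * C * (K₀ + 1) := by positivity
    linarith
  have hm316 : m ^ (-(3 / 16) : ℝ) ≤ 1 := Real.rpow_le_one_of_one_le_of_nonpos (by linarith) (by norm_num)
  have hm316' : 0 ≤ m ^ (-(3 / 16) : ℝ) := by positivity
  have hq0 : 0 ≤ CN * m ^ (-(3 / 16) : ℝ) := by positivity
  obtain ⟨g1, g2, g3⟩ := hblk B hB k hk250 m (1 / √m) (pL m) (pY m) hm rfl hLa hYb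
  refine core h hB hC1 (fun m hm δ hδ0 hδ1 V G => hup B hB m hm δ hδ0 hδ1 V G) hk250 (m := m) (δ := 1 / √m)
    (L := pL m) (Y := pY m) (ω := ω) (A := A) (K₀ := K₀) (c := c) hm rfl hq0 (by positivity) hCJ g1 g2 g3 hLa hYb hω1 hA1 hK₀ hc0 hW f10 ?_ f8 ?_
    f1 ?_ ?_ f4 ?_ ?_ ?_
  · intro N hN
    have hw0 : 0 ≤ c * ω * √(N : ℝ) := by positivity
    rcases lt_or_ge N (max X₀ X₁) with h1 | h1
    · have := hsm N h1
      linarith
    · have h2 := hX₀ N ((le_max_left _ _).trans h1)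
      have h3 := hX₁ N ((le_max_right _ _).trans h1)
      have h4 := f9.2.2 N hN h3
      have h5 : c * √(N : ℝ) * w (1 - Real.log (Real.log (Real.log N)) ^ 3 / Real.log (Real.log N)) ≤
          c * √(N : ℝ) * ω :=
        mul_le_mul_of_nonneg_left h4 (by positivity)
      have h6 : 0 ≤ K₀ * √(N : ℝ) := by positivity
      linarith
  · intro R hR0 hR
    apply f7 R hR0
    refine hR.trans ?_
    have h1 : 40 * A * ω ≤ 40 * A * (2 * |Cw| * √m) := mul_le_mul_of_nonneg_left f11 (by positivity)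
    linarith
  · have hqle : CN * m ^ (-(3 / 16) : ℝ) ≤ CN := mul_le_of_le_one_right hCN hm316
    have h1 : 0 ≤ CJ / (pL m * (1 / √m / 2)) := by positivity
    have e : CJ / (pL m * (1 / √m / 2)) = 2 * CJ * (√m / pL m) := by
      have : pL m ≠ 0 := by positivity
      field_simp
    calc (1 / 128 + 40 * (4 + 16 * B + CN * m ^ (-(3 / 16) : ℝ)) * A) * (CJ / (pL m * (1 / √m / 2)))
        ≤ (1 / 128 + 40 * (4 + 16 * B + CN) * A) * (CJ / (pL m * (1 / √m / 2))) := by gcongr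
      _ = (1 / 128 + 40 * (4 + 16 * B + CN) * A) * (2 * CJ) * (√m / pL m) := by rw [e]; ring
      _ ≤ 1 / 400 := f2
  · have e : 2 * (256 * (CH * (B + 1) * m ^ 6) * (40 * A)) * (CJ / pL m ^ 15) =
        2 * (256 * (40 * A)) * (CH * (B + 1)) * m ^ 6 * (CJ / pL m ^ 15) := by ring
    rw [e]
    exact f3
  · have e : 2 * Real.pi * (C * B * (pY m + 3) * Real.exp (-(m / 16))) * (4 * m) =
        8 * Real.pi * C * B * (m * ((pY m + 3) * Real.exp (-(m / 16)))) := by ring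
    rw [e]
    exact f5
  · have e : 256 * (CH * (B + 1) * m ^ 6) * (40 * A) * (pY m + 3) * (CJ / pL m ^ 15) =
        256 * (40 * A) * (CH * (B + 1)) * m ^ 6 * (pY m + 3) * (CJ / pL m ^ 15) := by ring
    rw [e]
    exact f6
  · rw [hc]
    apply le_of_eq
    field_simp

end Pool.Agent.Helper19.QL
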